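import Mathlib
import Pool.Agent.Lib.Angles.Unif

/-!
# Angles in Borel sets of dimension proportional to the ambient dimension

The full answer to Q1 of `MP_937c79_an` (the statement is true), with a constant that is uniform
on every compact set of angles of `(0, π)` which does not contain `π / 2`.
-/

namespace Pool.Agent.Results.MP_937c79_an.UniformAngles

open Pool.Agent.Lib.Angles

/-- The set `𝒜(E)` of angles determined by `E`, exactly as in the problem file: the numbers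
`∠(y - x, z - x)` for pairwise distinct `x, y, z ∈ E`, where `∠(u, v) ∈ [0, π]` is the number whose
cosine is `⟨u, v⟩ / (|u| |v|)`. -/
def angles {n : ℕ} (E : Set (EuclideanSpace ℝ (Fin n))) : Set ℝ :=
  {α | ∃ x ∈ E, ∃ y ∈ E, ∃ z ∈ E, x ≠ y ∧ y ≠ z ∧ x ≠ z ∧
    0 ≤ α ∧ α ≤ Real.pi ∧ Real.cos α = inner ℝ (y - x) (z - x) / (‖y - x‖ * ‖z - x‖)}

lemma mem_angles {n : ℕ} {E : Set (EuclideanSpace ℝ (Fin n))} {α : ℝ} (hα0 : 0 < α)
    (hα1 : α < Real.pi)
    (h : ∃ v ∈ E, ∃ y ∈ E, ∃ z ∈ E, y ≠ v ∧ z ≠ v ∧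
      inner ℝ (dir v y) (dir v z) = Real.cos α) : α ∈ angles E := by
  obtain ⟨v, hv, y, hy, z, hz, h1, h2, h3⟩ := h
  obtain ⟨-, -, hyz, -⟩ := angle_of_inner_dir hα0 hα1 h1 h2 h3
  refine ⟨v, hv, y, hy, z, hz, h1.symm, hyz, h2.symm, hα0.le, hα1.le, ?_⟩
  have hyn : ‖y - v‖ ≠ 0 := norm_ne_zero_iff.2 (sub_ne_zero.2 h1)
  have hzn : ‖z - v‖ ≠ 0 := norm_ne_zero_iff.2 (sub_ne_zero.2 h2)
  rw [← h3]
  unfold dir
  rw [real_inner_smul_left, real_inner_smul_right]
  field_simp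

/-- **The answer to Q1 is yes**, and the constant can be chosen uniformly for all angles of a
compact subset of `(0, π)` not containing `π / 2` (and `π / 2` itself can be added). -/
theorem result :
    (∀ α : ℝ, 0 < α → α < Real.pi →
      ∃ c : ℝ, 0 < c ∧ c < 1 ∧ ∀ n : ℕ, 2 ≤ n →
        ∀ E : Set (EuclideanSpace ℝ (Fin n)), MeasurableSet E →
          ENNReal.ofReal (c * (n : ℝ)) < dimH E → α ∈ angles E) ∧
    (∀ K : Set ℝ, IsCompact K → K ⊆ Set.Ioo 0 Real.pi → Real.pi / 2 ∉ K →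
      ∃ c : ℝ, 0 < c ∧ c < 1 ∧ ∀ n : ℕ, 2 ≤ n →
        ∀ E : Set (EuclideanSpace ℝ (Fin n)), MeasurableSet E →
          ENNReal.ofReal (c * (n : ℝ)) < dimH E → K ∪ {Real.pi / 2} ⊆ angles E) := by
  have main : ∀ K : Set ℝ, IsCompact K → K ⊆ Set.Ioo 0 Real.pi → Real.pi / 2 ∉ K →
      ∃ c : ℝ, 0 < c ∧ c < 1 ∧ ∀ n : ℕ, 2 ≤ n →
        ∀ E : Set (EuclideanSpace ℝ (Fin n)), MeasurableSet E →
          ENNReal.ofReal (c * (n : ℝ)) < dimH E → K ∪ {Real.pi / 2} ⊆ angles E := by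
    intro K hK hK1 hK2
    have hpi := Real.pi_pos
    obtain ⟨a, b₀, ha, hab, hb₀, hKab⟩ : ∃ a b₀ : ℝ, 0 < a ∧ a ≤ b₀ ∧ b₀ < 1 ∧
        ∀ α ∈ K, a ≤ |Real.cos α| ∧ |Real.cos α| ≤ b₀ := by
      rcases K.eq_empty_or_nonempty with rfl | hne
      · exact ⟨1 / 2, 1 / 2, by norm_num, le_rfl, by norm_num, fun α hα => absurd hα (by simp)⟩
      · have hcont : ContinuousOn (fun α : ℝ => |Real.cos α|) K :=
          (Real.continuous_cos.abs).continuousOn
        obtain ⟨α₁, hα₁, hmin⟩ := hK.exists_isMinOn hne hcont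
        obtain ⟨α₂, hα₂, hmax⟩ := hK.exists_isMaxOn hne hcont
        refine ⟨|Real.cos α₁|, |Real.cos α₂|, ?_, isMinOn_iff.1 hmin α₂ hα₂, ?_,
          fun α hα => ⟨isMinOn_iff.1 hmin α hα, isMaxOn_iff.1 hmax α hα⟩⟩
        · rw [abs_pos]
          intro h0
          obtain ⟨h1, h2⟩ := hK1 hα₁
          have h3 : α₁ = Real.pi / 2 := by
            apply Real.injOn_cos ⟨h1.le, h2.le⟩ ⟨by linarith, by linarith⟩
            rw [h0, Real.cos_pi_div_two]
          exact hK2 (h3 ▸ hα₁)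
        · obtain ⟨h1, h2⟩ := hK1 hα₂
          rw [abs_lt]
          constructor
          · have := Real.cos_lt_cos_of_nonneg_of_le_pi h1.le le_rfl h2
            rwa [Real.cos_pi] at this
          · have := Real.cos_lt_cos_of_nonneg_of_le_pi le_rfl h2.le h1
            rwa [Real.cos_zero] at this
    obtain ⟨c, hc, hmain⟩ := main_unif ha hab hb₀
    refine ⟨max c (3 / 4), lt_of_lt_of_le (by norm_num) (le_max_right _ _),
      max_lt hc (by norm_num), fun n hn E hE hdim => ?_⟩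
    have hn0 : (0 : ℝ) ≤ n := Nat.cast_nonneg n
    have hd1 : ENNReal.ofReal (c * (n : ℝ)) < dimH E :=
      lt_of_le_of_lt (ENNReal.ofReal_le_ofReal
        (mul_le_mul_of_nonneg_right (le_max_left _ _) hn0)) hdim
    have hd2 : ENNReal.ofReal (3 / 4 * (n : ℝ)) < dimH E :=
      lt_of_le_of_lt (ENNReal.ofReal_le_ofReal
        (mul_le_mul_of_nonneg_right (le_max_right _ _) hn0)) hdim
    rintro α (hα | hα)
    · obtain ⟨h1, h2⟩ := hK1 hα
      exact mem_angles h1 h2 (hmain n hn E hE hd1 α h1 h2 (hKab α hα).1 (hKab α hα).2)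
    · rw [Set.mem_singleton_iff] at hα
      subst hα
      apply mem_angles (by linarith) (by linarith)
      rw [Real.cos_pi_div_two]
      exact right_three_four hn hE hd2
  refine ⟨fun α hα0 hα1 => ?_, main⟩
  by_cases hα : α = Real.pi / 2
  · obtain ⟨c, hc0, hc1, h⟩ := main ∅ isCompact_empty (Set.empty_subset _) (by simp)
    exact ⟨c, hc0, hc1, fun n hn E hE hdim => h n hn E hE hdim (Or.inr (by simp [hα]))⟩
  · obtain ⟨c, hc0, hc1, h⟩ := main {α} isCompact_singleton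
      (Set.singleton_subset_iff.2 ⟨hα0, hα1⟩) (by
        rw [Set.mem_singleton_iff]
        exact fun h => hα h.symm)
    exact ⟨c, hc0, hc1, fun n hn E hE hdim => h n hn E hE hdim (Or.inl rfl)⟩

end Pool.Agent.Results.MP_937c79_an.UniformAngles
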